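import Mathlib

set_option autoImplicit false

namespace Pool.Agent.Results.MP_c15239_al.BoundedRank

universe u v w

/-- Finitely generated (left) modules over the ring `S`. -/
structure FMod (S : Type u) [Ring S] where
  carrier : Type u
  [acg : AddCommGroup carrier]
  [mod : Module S carrier]
  [fin : Module.Finite S carrier]

attribute [instance] FMod.acg FMod.mod FMod.fin

instance (S : Type u) [Ring S] : CoeSort (FMod S) (Type u) := ⟨FMod.carrier⟩

/-- Classes of homomorphisms between finitely generated modules. -/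
abbrev MorClass (S : Type u) [Ring S] := ∀ A B : FMod S, Set (A →ₗ[S] B)

/-- The radical: `f : A → B` is in it iff `1_A - g f` is an automorphism of `A` for every
`g : B → A`. -/
def rad (S : Type u) [Ring S] : MorClass S :=
  fun A B => {f | ∀ g : B →ₗ[S] A, IsUnit ((1 : Module.End S A) - g ∘ₗ f)}

/-- The product of two ideals: finite sums of composites `f g` with `f` in the first and `g` in
the second ideal. -/
def prod {S : Type u} [Ring S] (I J : MorClass S) : MorClass S :=
  fun A C => (AddSubmonoid.closure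
    {h : A →ₗ[S] C | ∃ (B : FMod S) (f : B →ₗ[S] C) (g : A →ₗ[S] B),
      f ∈ I B C ∧ g ∈ J A B ∧ h = f ∘ₗ g} : AddSubmonoid (A →ₗ[S] C))

open Classical in
/-- Auxiliary recursion. For an ordinal `ν ≥ 1` the first component is `rad^ν`. The second
component is `rad` if `ν` is finite, and `rad^λ` if `ν = λ + n` with `λ` a limit ordinal and `n`
finite. -/
noncomputable def radAux (S : Type u) [Ring S] (ν : Ordinal.{v}) : MorClass S × MorClass S :=
  Ordinal.limitRecOn (motive := fun _ => MorClass S × MorClass S) ν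
    (fun _ _ => Set.univ, rad S)
    (fun μ P => if μ = 0 then (rad S, rad S) else (prod P.1 P.2, P.2))
    (fun lam _ P =>
      (fun A B => ⋂ (μ : Ordinal.{v}) (h : μ < lam), (P μ h).1 A B,
       fun A B => ⋂ (μ : Ordinal.{v}) (h : μ < lam), (P μ h).1 A B))

/-- The transfinite powers `rad^ν` (for `ν = 0` this is the class of all homomorphisms). -/
noncomputable def radPow (S : Type u) [Ring S] (ν : Ordinal.{v}) : MorClass S := (radAux S ν).1

/-- Powers of a class of homomorphisms, `pow I n = I^(n+1)`. -/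
def pow {S : Type u} [Ring S] (I : MorClass S) : ℕ → MorClass S
  | 0 => I
  | n + 1 => prod (pow I n) I

section spec
variable (S : Type u) [Ring S]

theorem radAux_zero : radAux S (0 : Ordinal.{v}) = (fun _ _ => Set.univ, rad S) := by
  simp [radAux]

theorem radAux_one : radAux S (1 : Ordinal.{v}) = (rad S, rad S) := by
  have : (1 : Ordinal.{v}) = 0 + 1 := by simp
  rw [this]
  unfold radAux
  rw [Ordinal.limitRecOn_add_one]
  simp

theorem radAux_succ (ν : Ordinal.{v}) (h : ν ≠ 0) :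
    radAux S (ν + 1) = (prod (radAux S ν).1 (radAux S ν).2, (radAux S ν).2) := by
  unfold radAux
  rw [Ordinal.limitRecOn_add_one]
  simp [h]

theorem radAux_limit (lam : Ordinal.{v}) (h : Order.IsSuccLimit lam) :
    radAux S lam = (fun A B => ⋂ (μ : Ordinal.{v}) (_ : μ < lam), radPow S μ A B,
      fun A B => ⋂ (μ : Ordinal.{v}) (_ : μ < lam), radPow S μ A B) := by
  unfold radPow radAux
  rw [Ordinal.limitRecOn_limit _ _ _ _ h]

end spec


/-! The recursion for `radPow`: `rad^1 = rad`, `rad^(m+1)` is the `(m+1)`-st power of `rad` for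
finite `m`, `rad^λ` is the intersection of the earlier powers for a limit ordinal `λ`, and
`rad^(λ+m) = (rad^λ)^(m+1)`. -/
section spec
variable (S : Type u) [Ring S]

theorem radPow_one : radPow S (1 : Ordinal.{v}) = rad S := by
  unfold radPow; rw [radAux_one]

theorem radAux_nat (n : ℕ) : radAux S ((n : Ordinal.{v}) + 1) = (pow (rad S) n, rad S) := by
  induction n with
  | zero => rw [Nat.cast_zero, zero_add, radAux_one]; rfl
  | succ n ih =>
    rw [Nat.cast_succ, radAux_succ S _ (by simp), ih]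
    rfl

theorem radPow_nat (n : ℕ) : radPow S ((n : Ordinal.{v}) + 1) = pow (rad S) n := by
  unfold radPow; rw [radAux_nat]

theorem radPow_limit (lam : Ordinal.{v}) (h : Order.IsSuccLimit lam) (A B : FMod S) :
    radPow S lam A B = ⋂ (μ : Ordinal.{v}) (_ : μ < lam), radPow S μ A B := by
  conv_lhs => unfold radPow
  rw [radAux_limit S lam h]

theorem radAux_limit_add (lam : Ordinal.{v}) (h : Order.IsSuccLimit lam) (n : ℕ) :
    radAux S (lam + n) = (pow (radPow S lam) n, radPow S lam) := by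
  induction n with
  | zero =>
    rw [Nat.cast_zero, add_zero]
    have h1 : radPow S lam = fun A B => ⋂ (μ : Ordinal.{v}) (_ : μ < lam), radPow S μ A B := by
      funext A B; exact radPow_limit S lam h A B
    rw [radAux_limit S lam h, ← h1]; rfl
  | succ n ih =>
    have hne : lam + (n : Ordinal.{v}) ≠ 0 := by
      intro h0
      have h2 : lam = 0 := by
        have := (le_self_add : lam ≤ lam + (n : Ordinal.{v}))
        rw [h0] at this
        exact le_antisymm this zero_le
      exact h.ne_bot (by rw [h2]; rfl)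
    rw [Nat.cast_succ, ← add_assoc, radAux_succ S _ hne, ih]
    rfl

theorem radPow_limit_add (lam : Ordinal.{v}) (h : Order.IsSuccLimit lam) (n : ℕ) :
    radPow S (lam + n) = pow (radPow S lam) n := by
  conv_lhs => unfold radPow
  rw [radAux_limit_add S lam h]

end spec

/-- A factorisable system (with `n`-tuples) in the finitely generated `S`-modules, indexed by the
nonnegative rational numbers. -/
structure FactorisableSystem (S : Type u) [Ring S] (n : ℕ) where
  M : ℚ≥0 → FMod S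
  a : ∀ α, Fin n → M α
  f : ∀ {α β : ℚ≥0}, α < β → (M α →ₗ[S] M β)
  comp : ∀ (α β γ : ℚ≥0) (h : α < β) (h' : β < γ), f h' ∘ₗ f h = f (h.trans h')
  base : ∀ (α : ℚ≥0) (h : 0 < α) (j : Fin n), f h (a 0 j) = a α j
  notFactor : ∀ (α β : ℚ≥0) (h : α < β),
    ¬ ∃ g : M β →ₗ[S] M α, ∀ j, g (f h (a α j)) = a α j

/-- `U` is a direct sum of `m` nonzero submodules, expressed by the projections onto them:
`m` nonzero pairwise orthogonal idempotent endomorphisms with sum `1`. -/
def IsSum (S : Type u) [Ring S] (m : ℕ) (U : FMod S) : Prop :=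
  ∃ e : Fin m → Module.End S U, CompleteOrthogonalIdempotents e ∧ ∀ j, e j ≠ 0

/-- `f : A → B` has a direct sum of `m` nonzero modules as an isomorphic component: there are
`i : U → A` and `p : B → U` with `p f i = 1_U` and `U` a direct sum of `m` nonzero submodules.
(The largest such `m` is the rank of `f` modulo the radical, i.e. the number of isomorphisms
between indecomposable direct summands that split off from `f`.) -/
def HasRank {S : Type u} [Ring S] {A B : FMod S} (f : A →ₗ[S] B) (m : ℕ) : Prop :=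
  ∃ (U : FMod S) (i : U →ₗ[S] A) (p : B →ₗ[S] U),
    IsSum S m U ∧ p ∘ₗ f ∘ₗ i = LinearMap.id


section idem
variable {S : Type u} [Ring S]

/-- Bundling a module. -/
abbrev FMod.of (S : Type u) [Ring S] (X : Type u) [AddCommGroup X] [Module S X]
    [Module.Finite S X] : FMod S := ⟨X⟩

theorem orth_of_split {m : ℕ} {U M : FMod S} (e : Fin m → Module.End S U)
    (he : CompleteOrthogonalIdempotents e) (i : U →ₗ[S] M) (r : M →ₗ[S] U)
    (h : r ∘ₗ i = LinearMap.id) :
    OrthogonalIdempotents (fun j => (i ∘ₗ e j ∘ₗ r : Module.End S M)) := by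
  have h' : ∀ x, r (i x) = x := fun x => LinearMap.congr_fun h x
  refine ⟨fun j => ?_, fun j k hjk => ?_⟩
  · have := LinearMap.congr_fun (he.idem j)
    refine LinearMap.ext fun x => ?_
    simp only [Module.End.mul_apply, LinearMap.comp_apply, h'] at this ⊢
    rw [this]
  · have := LinearMap.congr_fun (he.ortho hjk)
    refine LinearMap.ext fun x => ?_
    simp only [Module.End.mul_apply, LinearMap.comp_apply, h', LinearMap.zero_apply] at this ⊢
    rw [this, map_zero]

theorem sum_of_split {m : ℕ} {U M : FMod S} (e : Fin m → Module.End S U)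
    (he : CompleteOrthogonalIdempotents e) (i : U →ₗ[S] M) (r : M →ₗ[S] U) :
    ∑ j, (i ∘ₗ e j ∘ₗ r : Module.End S M) = i ∘ₗ r := by
  refine LinearMap.ext fun x => ?_
  have h1 := LinearMap.congr_fun he.complete (r x)
  simp only [LinearMap.sum_apply, LinearMap.comp_apply, Module.End.one_apply] at h1 ⊢
  rw [← map_sum, h1]

theorem nonzero_of_split {U M : FMod S} (e : Module.End S U) (he : e ≠ 0) (i : U →ₗ[S] M)
    (r : M →ₗ[S] U) (h : r ∘ₗ i = LinearMap.id) : (i ∘ₗ e ∘ₗ r : Module.End S M) ≠ 0 := by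
  have h' : ∀ x, r (i x) = x := fun x => LinearMap.congr_fun h x
  intro h0
  apply he
  refine LinearMap.ext fun x => ?_
  have := congrArg r (LinearMap.congr_fun h0 (i x))
  simpa only [LinearMap.comp_apply, h', LinearMap.zero_apply, map_zero] using this

theorem isSum_of_iso {m : ℕ} {U M : FMod S} (hU : IsSum S m U) (i : U →ₗ[S] M) (r : M →ₗ[S] U)
    (h : r ∘ₗ i = LinearMap.id) (h1 : i ∘ₗ r = LinearMap.id) : IsSum S m M := by
  obtain ⟨e, he, hne⟩ := hU
  refine ⟨fun j => i ∘ₗ e j ∘ₗ r, ⟨orth_of_split e he i r h, ?_⟩, fun j =>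
    nonzero_of_split _ (hne j) i r h⟩
  rw [sum_of_split e he, h1]; rfl

theorem isSum_succ_of_split {m : ℕ} {U M : FMod S} (hU : IsSum S m U) (i : U →ₗ[S] M)
    (r : M →ₗ[S] U) (h : r ∘ₗ i = LinearMap.id) (h1 : i ∘ₗ r ≠ LinearMap.id) :
    IsSum S (m + 1) M := by
  obtain ⟨e, he, hne⟩ := hU
  have ho := CompleteOrthogonalIdempotents.option (orth_of_split e he i r h)
  rw [sum_of_split e he] at ho
  refine ⟨fun j => Option.elim (finSuccEquiv m j) ((1 : Module.End S M) - i ∘ₗ r)
    (fun j => i ∘ₗ e j ∘ₗ r), ?_, ?_⟩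
  · exact (CompleteOrthogonalIdempotents.equiv (finSuccEquiv m)).2 ho
  · intro j
    refine Fin.cases ?_ (fun j => ?_) j
    · simp only [finSuccEquiv_zero, Option.elim_none]
      intro h2
      exact h1 (sub_eq_zero.1 h2).symm
    · simp only [finSuccEquiv_succ, Option.elim_some]
      exact nonzero_of_split _ (hne j) i r h

theorem isSum_zero : IsSum S 0 (FMod.of S PUnit.{u + 1}) := by
  refine ⟨Fin.elim0, ⟨⟨fun j => j.elim0, fun j => j.elim0⟩, ?_⟩, fun j => j.elim0⟩
  refine LinearMap.ext fun x => ?_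
  exact Subsingleton.elim (α := PUnit.{u + 1}) _ _

end idem

section nonrad
variable {S : Type u} [Ring S]

/-- A homomorphism outside the radical has a nonzero module as an isomorphic component. -/
theorem exists_component {A B : FMod S} [IsNoetherian S A] [IsArtinian S A] (k : A →ₗ[S] B)
    (hk : k ∉ rad S A B) :
    ∃ (V : FMod S) (i : V →ₗ[S] A) (p : B →ₗ[S] V), Nontrivial V ∧ p ∘ₗ k ∘ₗ i = LinearMap.id := by
  simp only [rad, Set.mem_ofPred_eq, not_forall] at hk
  obtain ⟨g, hg⟩ := hk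
  set h : Module.End S A := g ∘ₗ k with hh
  set N : Module.End S A := 1 - h with hN
  obtain ⟨m, hm⟩ := (Filter.eventually_atTop.1 (N.eventually_isCompl_ker_pow_range_pow))
  have hc : IsCompl (LinearMap.ker (N ^ (m + 1))) (LinearMap.range (N ^ (m + 1))) :=
    hm (m + 1) (Nat.le_succ m)
  set W : Submodule S A := LinearMap.ker (N ^ (m + 1)) with hW
  have hne : W ≠ ⊥ := by
    intro h0
    apply hg
    have hinj : Function.Injective (N ^ (m + 1)) := LinearMap.ker_eq_bot.1 h0
    have hinj' : Function.Injective N := by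
      intro x y hxy
      apply hinj
      rw [pow_succ]
      simp only [Module.End.mul_apply]
      rw [hxy]
    exact (Module.End.isUnit_iff N).2 (IsArtinian.bijective_of_injective_endomorphism N hinj')
  have hcomm : Commute h (N ^ (m + 1)) := by
    apply Commute.pow_right
    rw [hN]
    exact Commute.sub_right (Commute.one_right h) (Commute.refl h)
  have hmap : ∀ x ∈ W, h x ∈ W := by
    intro x hx
    rw [hW, LinearMap.mem_ker] at hx ⊢
    have := LinearMap.congr_fun hcomm.eq x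
    simp only [Module.End.mul_apply] at this
    rw [← this, hx, map_zero]
  have : Module.Finite S W := Module.IsNoetherian.finite S W
  let hr : Module.End S W := h.restrict hmap
  have hinj : Function.Injective hr := by
    rw [← LinearMap.ker_eq_bot, LinearMap.ker_eq_bot']
    intro x hx
    have hx1 : h (x : A) = 0 := by
      have := congrArg Subtype.val hx
      simpa [hr] using this
    have hx2 : ∀ j : ℕ, (N ^ j) (x : A) = x := by
      intro j
      induction j with
      | zero => rfl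
      | succ j ih =>
        rw [pow_succ]
        simp only [Module.End.mul_apply]
        have : N (x : A) = x := by
          rw [hN]
          simp only [LinearMap.sub_apply, Module.End.one_apply, hx1, sub_zero]
        rw [this, ih]
    have hx3 : (N ^ (m + 1)) (x : A) = 0 := LinearMap.mem_ker.1 x.2
    rw [hx2] at hx3
    exact Subtype.ext hx3
  have hbij : Function.Bijective hr := IsArtinian.bijective_of_injective_endomorphism hr hinj
  let E : W ≃ₗ[S] W := LinearEquiv.ofBijective hr hbij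
  have key : ∀ x : W, E.symm (W.projectionOnto _ hc (g (k (x : A)))) = x := by
    intro x
    have h1 : g (k (x : A)) = ((hr x : W) : A) := rfl
    rw [h1, Submodule.projectionOnto_apply_left]
    exact E.symm_apply_apply x
  exact ⟨FMod.of S W, W.subtype,
    E.symm.toLinearMap ∘ₗ W.projectionOnto _ hc ∘ₗ g,
    (Submodule.nontrivial_iff_ne_bot).2 hne, LinearMap.ext key⟩

end nonrad


section main
variable {S : Type u} [Ring S] {n : ℕ}

theorem FactorisableSystem.map_a (F : FactorisableSystem S n) {α β : ℚ≥0} (h : α < β)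
    (j : Fin n) : F.f h (F.a α j) = F.a β j := by
  rcases eq_or_lt_of_le (zero_le : 0 ≤ α) with h0 | h0
  · subst h0
    exact F.base β h j
  · rw [← F.base α h0 j, ← F.base β (h0.trans h) j, ← F.comp 0 α β h0 h]
    rfl

/-- The key step: from a maximal isomorphic component on the interval `(α₀, β₀)` one gets a
family of maps in the radical that satisfies the composition law and is nonzero. -/
theorem core [IsNoetherianRing S] [IsArtinianRing S] (F : FactorisableSystem S n)
    (a b : ℚ≥0) (m : ℕ)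
    (hmax : ∀ (α β : ℚ≥0) (h : α < β), a ≤ α → β ≤ b → ¬ HasRank (F.f h) (m + 1))
    (α₀ β₀ : ℚ≥0) (h₀ : α₀ < β₀) (ha : a ≤ α₀) (hb : β₀ ≤ b) (hr : HasRank (F.f h₀) m) :
    ∃ (K : {γ : ℚ≥0 // α₀ < γ ∧ γ < β₀} → FMod S)
      (k : ∀ {γ δ : {γ : ℚ≥0 // α₀ < γ ∧ γ < β₀}}, γ < δ → (K γ →ₗ[S] K δ)),
      (∀ (γ δ : {γ : ℚ≥0 // α₀ < γ ∧ γ < β₀}) (h : γ < δ), k h ∈ rad S (K γ) (K δ)) ∧
      (∀ (γ δ ε : {γ : ℚ≥0 // α₀ < γ ∧ γ < β₀}) (h : γ < δ) (h' : δ < ε),
        k h' ∘ₗ k h = k (h.trans h')) ∧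
      (∀ (γ δ ε : {γ : ℚ≥0 // α₀ < γ ∧ γ < β₀}) (h : γ < δ) (_ : δ < ε), k h ≠ 0) := by
  obtain ⟨U, i, p, hU, hp⟩ := hr
  set T := {γ : ℚ≥0 // α₀ < γ ∧ γ < β₀} with hT
  let ii : ∀ γ : T, U →ₗ[S] F.M γ := fun γ => F.f γ.2.1 ∘ₗ i
  let pp : ∀ γ : T, F.M γ →ₗ[S] U := fun γ => p ∘ₗ F.f γ.2.2
  have hpp : ∀ (γ δ : T) (h : γ.1 < δ.1) (x : F.M γ), pp δ (F.f h x) = pp γ x := by
    intro γ δ h x
    have := LinearMap.congr_fun (F.comp γ.1 δ.1 β₀ h δ.2.2) x
    change p (F.f δ.2.2 (F.f h x)) = p (F.f γ.2.2 x)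
    rw [← this]; rfl
  have hii : ∀ (γ δ : T) (h : γ.1 < δ.1) (u : U), F.f h (ii γ u) = ii δ u := by
    intro γ δ h u
    have := LinearMap.congr_fun (F.comp α₀ γ.1 δ.1 γ.2.1 h) (i u)
    exact this
  have hpi : ∀ (γ : T) (u : U), pp γ (ii γ u) = u := by
    intro γ u
    have h1 := LinearMap.congr_fun (F.comp α₀ γ.1 β₀ γ.2.1 γ.2.2) (i u)
    have h2 := LinearMap.congr_fun hp u
    change p (F.f γ.2.2 (F.f γ.2.1 (i u))) = u
    have h3 : F.f γ.2.2 (F.f γ.2.1 (i u)) = F.f h₀ (i u) := h1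
    rw [h3]; exact h2
  have hfin : ∀ γ : T, Module.Finite S (LinearMap.ker (pp γ)) := fun γ =>
    Module.IsNoetherian.finite S _
  let K : T → FMod S := fun γ => FMod.of S (LinearMap.ker (pp γ))
  let k : ∀ {γ δ : T}, γ < δ → (K γ →ₗ[S] K δ) := fun {γ δ} h =>
    (F.f (show γ.1 < δ.1 from h)).restrict (p := LinearMap.ker (pp γ))
      (q := LinearMap.ker (pp δ)) (fun x hx => by
        rw [LinearMap.mem_ker] at hx ⊢
        rw [hpp γ δ h x, hx])
  -- the projection onto the complement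
  let qq : ∀ γ : T, F.M γ →ₗ[S] K γ := fun γ =>
    LinearMap.codRestrict (LinearMap.ker (pp γ)) (LinearMap.id - ii γ ∘ₗ pp γ) (fun x => by
      rw [LinearMap.mem_ker]
      simp only [LinearMap.sub_apply, LinearMap.id_apply, LinearMap.comp_apply, map_sub]
      rw [hpi, sub_self])
  refine ⟨K, @k, ?_, ?_, ?_⟩
  · intro γ δ h
    by_contra hnot
    have h' : γ.1 < δ.1 := h
    obtain ⟨V, iV, pV, hV, hpV⟩ := exists_component (k h) hnot
    apply hmax γ.1 δ.1 h' (ha.trans γ.2.1.le) (δ.2.2.le.trans hb)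
    have hsum : IsSum S (m + 1) (FMod.of S (U × V)) := by
      refine isSum_succ_of_split (M := FMod.of S (U × V)) hU (LinearMap.inl S U V)
        (LinearMap.fst S U V) ?_ ?_
      · exact LinearMap.ext fun x => rfl
      · intro h0
        obtain ⟨v, hv⟩ := exists_ne (0 : V)
        apply hv
        have := LinearMap.congr_fun h0 ((0 : U), v)
        have h2 := congrArg Prod.snd this
        exact h2.symm
    refine ⟨FMod.of S (U × V),
      LinearMap.coprod (ii γ) ((LinearMap.ker (pp γ)).subtype ∘ₗ iV),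
      LinearMap.prod (pp δ) (pV ∘ₗ qq δ), hsum, ?_⟩
    refine LinearMap.ext fun x => ?_
    obtain ⟨u, v⟩ := x
    have e1 : F.f h' (ii γ u + ((iV v : K γ) : F.M γ)) = ii δ u + ((k h (iV v) : K δ) : F.M δ) := by
      rw [map_add, hii γ δ h' u]
      rfl
    have e2 : pp δ ((k h (iV v) : K δ) : F.M δ) = 0 := LinearMap.mem_ker.1 (k h (iV v)).2
    have e3 : pp δ (ii δ u + ((k h (iV v) : K δ) : F.M δ)) = u := by
      rw [map_add, hpi, e2, add_zero]
    have e4 : qq δ (ii δ u + ((k h (iV v) : K δ) : F.M δ)) = k h (iV v) := by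
      apply Subtype.ext
      change (ii δ u + ((k h (iV v) : K δ) : F.M δ)) -
        ii δ (pp δ (ii δ u + ((k h (iV v) : K δ) : F.M δ))) = _
      rw [e3, add_sub_cancel_left]
    have e5 : pV (k h (iV v)) = v := LinearMap.congr_fun hpV v
    change ((pp δ) (F.f h' (ii γ u + ((iV v : K γ) : F.M γ))),
      pV (qq δ (F.f h' (ii γ u + ((iV v : K γ) : F.M γ))))) = (u, v)
    rw [e1, e3, e4, e5]
  · intro γ δ ε h h'
    refine LinearMap.ext fun x => Subtype.ext ?_
    exact LinearMap.congr_fun (F.comp γ.1 δ.1 ε.1 h h') (x : F.M γ)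
  · intro γ δ ε h h' h0
    have hγδ : γ.1 < δ.1 := h
    have hδε : δ.1 < ε.1 := h'
    apply F.notFactor δ.1 ε.1 hδε
    refine ⟨ii δ ∘ₗ pp ε, fun j => ?_⟩
    have h1 : (k h (qq γ (F.a γ.1 j)) : F.M δ) = 0 := by rw [h0]; rfl
    have h2 : (k h (qq γ (F.a γ.1 j)) : F.M δ) = F.f hγδ (F.a γ.1 j - ii γ (pp γ (F.a γ.1 j))) :=
      rfl
    rw [h2, map_sub, F.map_a hγδ j, hii γ δ hγδ] at h1
    change ii δ (pp ε (F.f hδε (F.a δ.1 j))) = F.a δ.1 j
    rw [hpp δ ε hδε]
    have h3 : pp δ (F.a δ.1 j) = pp γ (F.a γ.1 j) := by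
      rw [← hpp γ δ hγδ, F.map_a hγδ j]
    rw [h3]
    exact (sub_eq_zero.1 h1).symm

end main


section final
variable {S : Type u} [Ring S] {n : ℕ}

theorem mem_radPow_of_chain {T : Type*} [LinearOrder T] [DenselyOrdered T] (K : T → FMod S)
    (k : ∀ {γ δ : T}, γ < δ → (K γ →ₗ[S] K δ))
    (hrad : ∀ (γ δ : T) (h : γ < δ), k h ∈ rad S (K γ) (K δ))
    (hcomp : ∀ (γ δ ε : T) (h : γ < δ) (h' : δ < ε), k h' ∘ₗ k h = k (h.trans h'))
    (ν : Ordinal.{v}) :
    ∀ (γ δ : T) (h : γ < δ), k h ∈ (radAux S ν).1 (K γ) (K δ) ∧ k h ∈ (radAux S ν).2 (K γ) (K δ) := by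
  induction ν using Ordinal.limitRecOn with
  | zero =>
    intro γ δ h
    rw [radAux_zero]
    exact ⟨Set.mem_univ _, hrad γ δ h⟩
  | add_one ν ih =>
    intro γ δ h
    by_cases h0 : ν = 0
    · subst h0
      rw [zero_add, radAux_one]
      exact ⟨hrad γ δ h, hrad γ δ h⟩
    · rw [radAux_succ S ν h0]
      refine ⟨?_, (ih γ δ h).2⟩
      obtain ⟨ε, h1, h2⟩ := exists_between h
      apply AddSubmonoid.subset_closure
      exact ⟨K ε, k h2, k h1, (ih ε δ h2).1, (ih γ ε h1).2, (hcomp γ ε δ h1 h2).symm⟩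
  | limit lam hlam ih =>
    intro γ δ h
    rw [radAux_limit S lam hlam]
    have : k h ∈ ⋂ (μ : Ordinal.{v}) (_ : μ < lam), radPow S μ (K γ) (K δ) := by
      simp only [Set.mem_iInter]
      intro μ hμ
      exact (ih μ hμ γ δ h).1
    exact ⟨this, this⟩

theorem main [IsNoetherianRing S] [IsArtinianRing S] (F : FactorisableSystem S n)
    (a b : ℚ≥0) (N : ℕ) (hab : a < b)
    (hN : ∀ (α β : ℚ≥0) (h : α < β), a ≤ α → β ≤ b → ∀ m, HasRank (F.f h) m → m ≤ N) :
    ∃ (A B : FMod S) (h : A →ₗ[S] B), h ≠ 0 ∧ ∀ ν : Ordinal.{v}, h ∈ radPow S ν A B := by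
  classical
  let P : ℕ → Prop := fun m => ∃ (α β : ℚ≥0) (h : α < β), a ≤ α ∧ β ≤ b ∧ HasRank (F.f h) m
  have hP0 : P 0 := ⟨a, b, hab, le_rfl, le_rfl, FMod.of S PUnit.{u + 1}, 0, 0, isSum_zero,
    LinearMap.ext fun x => Subsingleton.elim (α := PUnit.{u + 1}) _ _⟩
  have hPb : ∀ m, P m → m ≤ N := fun m ⟨α, β, h, h1, h2, h3⟩ => hN α β h h1 h2 m h3
  have hfg : P (Nat.findGreatest P N) := Nat.findGreatest_spec (m := 0) (Nat.zero_le _) hP0
  set m := Nat.findGreatest P N with hm
  have hmax : ¬ P (m + 1) := by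
    intro h
    have := Nat.le_findGreatest (hPb _ h) h
    omega
  obtain ⟨α₀, β₀, h₀, ha, hb, hr⟩ := hfg
  obtain ⟨K, k, hrad, hcomp, hne⟩ := core F a b m
    (fun α β h h1 h2 h3 => hmax ⟨α, β, h, h1, h2, h3⟩) α₀ β₀ h₀ ha hb hr
  have hdense : DenselyOrdered {γ : ℚ≥0 // α₀ < γ ∧ γ < β₀} := by
    refine ⟨fun x y hxy => ?_⟩
    obtain ⟨z, h1, h2⟩ := exists_between (show x.1 < y.1 from hxy)
    exact ⟨⟨z, x.2.1.trans h1, h2.trans y.2.2⟩, h1, h2⟩
  obtain ⟨z, hz1, hz2⟩ := exists_between h₀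
  obtain ⟨y, hy1, hy2⟩ := exists_between hz1
  obtain ⟨w, hw1, hw2⟩ := exists_between hz2
  let y' : {γ : ℚ≥0 // α₀ < γ ∧ γ < β₀} := ⟨y, hy1, hy2.trans hz2⟩
  let z' : {γ : ℚ≥0 // α₀ < γ ∧ γ < β₀} := ⟨z, hz1, hz2⟩
  let w' : {γ : ℚ≥0 // α₀ < γ ∧ γ < β₀} := ⟨w, hz1.trans hw1, hw2⟩
  have h1 : y' < z' := hy2
  have h2 : z' < w' := hw1
  exact ⟨K y', K z', k h1, hne y' z' w' h1 h2, fun ν =>
    (mem_radPow_of_chain K @k hrad hcomp ν y' z' h1).1⟩

theorem hasRank_le_of_isSum_le (F : FactorisableSystem S n) (a b : ℚ≥0) (N : ℕ)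
    (hN : ∀ α : ℚ≥0, a ≤ α → α ≤ b → ∀ m, IsSum S m (F.M α) → m ≤ N) :
    ∀ (α β : ℚ≥0) (h : α < β), a ≤ α → β ≤ b → ∀ m, HasRank (F.f h) m → m ≤ N := by
  intro α β h ha hb m hm
  obtain ⟨U, i, p, hU, hp⟩ := hm
  by_cases h1 : i ∘ₗ (p ∘ₗ F.f h) = LinearMap.id
  · exact hN α ha (h.le.trans hb) m (isSum_of_iso hU i (p ∘ₗ F.f h) hp h1)
  · have := hN α ha (h.le.trans hb) (m + 1) (isSum_succ_of_split hU i (p ∘ₗ F.f h) hp h1)
    omega

end final

/-- Let `R` be an artin algebra over `k`; finitely generated right `R`-modules are the finitely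
generated left modules over `Rᵐᵒᵖ`. Let `F` be a factorisable system, and suppose that there are an
interval `[a, b]` with `a < b` and a number `N` such that every `f_{αβ}` with `a ≤ α < β ≤ b` has
rank at most `N` modulo the radical: whenever a direct sum of `m` nonzero modules is an isomorphic
component of `f_{αβ}`, then `m ≤ N`. Then there is a nonzero homomorphism that lies in all
transfinite powers of the radical, that is, `rad^∞ ≠ 0`. -/
theorem result (k R : Type u) [CommRing k] [IsArtinianRing k] [Ring R] [Algebra k R]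
    [Module.Finite k R] (n : ℕ) (F : FactorisableSystem Rᵐᵒᵖ n) (a b : ℚ≥0) (N : ℕ) (hab : a < b)
    (hN : ∀ (α β : ℚ≥0) (h : α < β), a ≤ α → β ≤ b → ∀ m : ℕ, HasRank (F.f h) m → m ≤ N) :
    ∃ (A B : FMod Rᵐᵒᵖ) (h : A →ₗ[Rᵐᵒᵖ] B), h ≠ 0 ∧
      ∀ ν : Ordinal.{v}, h ∈ radPow Rᵐᵒᵖ ν A B := by
  have hf : Module.Finite k Rᵐᵒᵖ := Module.Finite.equiv (MulOpposite.opLinearEquiv k (M := R))
  have h1 : IsNoetherian k Rᵐᵒᵖ := inferInstance
  have h2 : IsArtinian k Rᵐᵒᵖ := inferInstance
  have h3 : IsNoetherianRing Rᵐᵒᵖ := isNoetherian_of_tower k h1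
  have h4 : IsArtinianRing Rᵐᵒᵖ := isArtinian_of_tower k h2
  exact main F a b N hab hN

end Pool.Agent.Results.MP_c15239_al.BoundedRank
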